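import Mathlib

/-!
Blocks of a sparse set that meets every large difference set.
-/

namespace Pool.Agent.Y936.Stohr

open Finset

/-- Hitting set lemma: a family of subsets of `X`, each of density at least `δ`, can be hit
by few points. -/
theorem hitting {ι α : Type*} [DecidableEq α] (F : Finset ι) (W : ι → Finset α)
    (X : Finset α) (hX : X.Nonempty) (δ : ℝ) (hδ1 : δ ≤ 1)
    (hW : ∀ i ∈ F, W i ⊆ X ∧ δ * X.card ≤ (W i).card) (k : ℕ) :
    ∃ A ⊆ X, A.card ≤ k ∧
      ((F.filter (fun i => Disjoint A (W i))).card : ℝ) ≤ (1 - δ) ^ k * F.card := by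
  classical
  induction k with
  | zero =>
    refine ⟨∅, by simp, by simp, ?_⟩
    simp
  | succ k ih =>
    obtain ⟨A, hAX, hAk, hA⟩ := ih
    set G := F.filter (fun i => Disjoint A (W i)) with hG
    have hGF : ∀ i ∈ G, i ∈ F := fun i hi => (mem_filter.1 hi).1
    -- averaging
    have hsum : ∑ x ∈ X, ((G.filter (fun i => x ∈ W i)).card : ℝ)
        = ∑ i ∈ G, ((W i).card : ℝ) := by
      have h1 : ∀ x ∈ X, ((G.filter (fun i => x ∈ W i)).card : ℝ)
          = ∑ i ∈ G, (if x ∈ W i then (1 : ℝ) else 0) := by
        intro x _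
        rw [card_filter]
        push_cast
        rfl
      rw [sum_congr rfl h1, sum_comm]
      refine sum_congr rfl fun i hi => ?_
      have hsub := (hW i (hGF i hi)).1
      rw [← sum_filter]
      have : X.filter (fun x => x ∈ W i) = W i := by
        ext x
        simp only [mem_filter]
        exact ⟨fun h => h.2, fun h => ⟨hsub h, h⟩⟩
      rw [this]
      simp
    have hlow : ∑ x ∈ X, (δ * (G.card : ℝ)) ≤ ∑ x ∈ X, ((G.filter (fun i => x ∈ W i)).card : ℝ) := by
      rw [hsum]
      have : ∑ i ∈ G, (δ * (X.card : ℝ)) ≤ ∑ i ∈ G, ((W i).card : ℝ) :=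
        sum_le_sum fun i hi => (hW i (hGF i hi)).2
      simp only [sum_const, nsmul_eq_mul] at this ⊢
      nlinarith [this]
    obtain ⟨x, hxX, hx⟩ := exists_le_of_sum_le hX hlow
    refine ⟨insert x A, ?_, ?_, ?_⟩
    · intro y hy
      rcases mem_insert.1 hy with rfl | hy
      · exact hxX
      · exact hAX hy
    · exact (card_insert_le _ _).trans (by omega)
    · have hsplit : (F.filter (fun i => Disjoint (insert x A) (W i)))
          = G.filter (fun i => ¬ x ∈ W i) := by
        ext i
        simp only [hG, mem_filter, disjoint_insert_left]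
        tauto
      have hcard : ((G.filter (fun i => x ∈ W i)).card : ℝ)
          + ((G.filter (fun i => ¬ x ∈ W i)).card : ℝ) = (G.card : ℝ) := by
        exact_mod_cast card_filter_add_card_filter_not (s := G) (fun i => x ∈ W i)
      rw [hsplit, pow_succ]
      have h1 : ((G.filter (fun i => ¬ x ∈ W i)).card : ℝ) ≤ (1 - δ) * G.card := by linarith
      refine h1.trans ?_
      have : (1 - δ) * (G.card : ℝ) ≤ (1 - δ) * ((1 - δ) ^ k * F.card) :=
        mul_le_mul_of_nonneg_left hA (by linarith)
      refine this.trans (le_of_eq (by ring))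

/-- The set of differences `x - b` with `x` in the range of `f` and `b ∈ B`. -/
def diffs {k : ℕ} (f : Fin k → ℕ) (B : Finset ℕ) : Finset ℕ :=
  (univ ×ˢ B).image (fun p : Fin k × ℕ => f p.1 - p.2)

theorem mem_diffs {k : ℕ} (f : Fin k → ℕ) (B : Finset ℕ) (y : ℕ) :
    y ∈ diffs f B ↔ ∃ i, ∃ b ∈ B, f i - b = y := by
  simp only [diffs, mem_image, mem_product, mem_univ, true_and, Prod.exists]

/-- Greedy choice of few translates with a large union. -/
theorem greedy (T B : Finset ℕ) (hTB : ∀ x ∈ T, ∀ b ∈ B, b ≤ x) (hT : T.Nonempty) (k : ℕ) :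
    ∃ f : Fin k → ℕ, (∀ i, f i ∈ T) ∧ min T.card (k * B.card) ≤ 2 * (diffs f B).card := by
  classical
  induction k with
  | zero => exact ⟨Fin.elim0, fun i => i.elim0, by simp⟩
  | succ k ih =>
    obtain ⟨f, hfT, hf⟩ := ih
    have key : ∀ x ∈ T, diffs f B ∪ B.image (fun b => x - b) = diffs (Fin.cons x f) B := by
      intro x _
      ext y
      simp only [mem_union, mem_diffs, mem_image]
      constructor
      · rintro (⟨i, b, hb, rfl⟩ | ⟨b, hb, rfl⟩)
        · exact ⟨i.succ, b, hb, by simp⟩
        · exact ⟨0, b, hb, by simp⟩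
      · rintro ⟨i, b, hb, rfl⟩
        refine Fin.cases ?_ (fun i => ?_) i
        · exact Or.inr ⟨b, hb, by simp⟩
        · exact Or.inl ⟨i, b, hb, by simp⟩
    by_cases hbig : T.card ≤ 2 * (diffs f B).card
    · obtain ⟨x, hx⟩ := hT
      refine ⟨Fin.cons x f, ?_, ?_⟩
      · intro i
        refine Fin.cases ?_ (fun i => ?_) i
        · simpa using hx
        · simpa using hfT i
      · rw [← key x hx]
        have : (diffs f B).card ≤ (diffs f B ∪ B.image (fun b => x - b)).card :=
          card_le_card subset_union_left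
        exact (min_le_left _ _).trans (by omega)
    · push Not at hbig
      -- averaging over x ∈ T
      have hdc : ∑ x ∈ T, (B.filter (fun b => x - b ∈ diffs f B)).card
          ≤ B.card * (diffs f B).card := by
        have h1 : ∀ x ∈ T, (B.filter (fun b => x - b ∈ diffs f B)).card
            = ∑ b ∈ B, (if x - b ∈ diffs f B then 1 else 0) := by
          intro x _
          rw [card_filter]
        rw [sum_congr rfl h1, sum_comm]
        have h2 : ∀ b ∈ B, ∑ x ∈ T, (if x - b ∈ diffs f B then 1 else 0)
            ≤ (diffs f B).card := by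
          intro b hb
          rw [← card_filter]
          refine card_le_card_of_injOn (fun x => x - b) ?_ ?_
          · intro x hx
            simp only [coe_filter, Set.mem_ofPred_eq] at hx
            exact hx.2
          · intro x hx y hy hxy
            simp only [coe_filter, Set.mem_ofPred_eq] at hx hy
            have hx' := hTB x hx.1 b hb
            have hy' := hTB y hy.1 b hb
            simp only at hxy
            omega
        calc ∑ b ∈ B, ∑ x ∈ T, (if x - b ∈ diffs f B then 1 else 0)
            ≤ ∑ b ∈ B, (diffs f B).card := sum_le_sum h2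
          _ = B.card * (diffs f B).card := by simp
      have hex : ∃ x ∈ T, 2 * (B.filter (fun b => x - b ∈ diffs f B)).card ≤ B.card := by
        by_contra hcon
        push Not at hcon
        have h3 : ∑ x ∈ T, (B.card + 1)
            ≤ ∑ x ∈ T, 2 * (B.filter (fun b => x - b ∈ diffs f B)).card :=
          sum_le_sum fun x hx => hcon x hx
        rw [← mul_sum] at h3
        simp only [sum_const, smul_eq_mul] at h3
        have hTpos : 0 < T.card := hT.card_pos
        have h4 : T.card * (B.card + 1) ≤ 2 * (B.card * (diffs f B).card) := by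
          omega
        have h5 : B.card * (2 * (diffs f B).card) ≤ B.card * T.card :=
          Nat.mul_le_mul_left _ hbig.le
        nlinarith
      obtain ⟨x, hxT, hx⟩ := hex
      refine ⟨Fin.cons x f, ?_, ?_⟩
      · intro i
        refine Fin.cases ?_ (fun i => ?_) i
        · simpa using hxT
        · simpa using hfT i
      · rw [← key x hxT]
        have hdisj : Disjoint (diffs f B)
            ((B.filter (fun b => ¬ x - b ∈ diffs f B)).image (fun b => x - b)) := by
          rw [disjoint_left]
          intro y hy hy'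
          simp only [mem_image, mem_filter] at hy'
          obtain ⟨b, ⟨_, hb⟩, rfl⟩ := hy'
          exact hb hy
        have hsub : (diffs f B) ∪
            ((B.filter (fun b => ¬ x - b ∈ diffs f B)).image (fun b => x - b))
            ⊆ diffs f B ∪ B.image (fun b => x - b) :=
          union_subset_union_right (image_subset_image (filter_subset _ _))
        have hc := card_le_card hsub
        rw [card_union_of_disjoint hdisj] at hc
        have hinj : ((B.filter (fun b => ¬ x - b ∈ diffs f B)).image (fun b => x - b)).card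
            = (B.filter (fun b => ¬ x - b ∈ diffs f B)).card := by
          refine card_image_of_injOn ?_
          intro b hb c hc hbc
          simp only [coe_filter, Set.mem_ofPred_eq] at hb hc
          have hb' := hTB x hxT b hb.1
          have hc' := hTB x hxT c hc.1
          simp only at hbc
          omega
        rw [hinj] at hc
        have hsplit := card_filter_add_card_filter_not (s := B) (fun b => x - b ∈ diffs f B)
        have hmin : min T.card ((k + 1) * B.card) ≤ min T.card (k * B.card) + B.card := by
          rw [Nat.succ_mul]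
          omega
        omega

/-- One block of the sparse set. -/
theorem block (N q m t L s : ℕ) (hN : 0 < N) (hL : L ≤ t * m) (hL0 : 0 < L) (hLN : L ≤ 2 * N)
    (hcount : (1 - (L : ℝ) / (2 * N)) ^ s * ((q + 1 : ℝ) ^ m * (N : ℝ) ^ t) < 1) :
    ∃ A ⊆ Ioc N (2 * N), A.card ≤ s ∧ ∀ B ⊆ range (q + 1), B.card = m →
      ((Ioc (N + q) (2 * N)).filter (fun x => ∀ b ∈ B, x - b ∉ A)).card < L := by
  classical
  set I := Ioc (N + q) (2 * N) with hI
  set F : Finset (Finset ℕ × (Fin t → ℕ)) :=
    ((powersetCard m (range (q + 1))) ×ˢ (Fintype.piFinset (fun _ : Fin t => I))).filter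
      (fun p => L ≤ 2 * (diffs p.2 p.1).card) with hF
  have hNr : (0 : ℝ) < N := by exact_mod_cast hN
  have hX : (Ioc N (2 * N)).card = N := by simp; omega
  have hXne : (Ioc N (2 * N)).Nonempty := by
    rw [← card_pos, hX]; exact hN
  have hδ1 : (L : ℝ) / (2 * N) ≤ 1 := by
    rw [div_le_one (by positivity)]
    exact_mod_cast hLN
  obtain ⟨A, hAX, hAs, hA⟩ := hitting F (fun p => diffs p.2 p.1) (Ioc N (2 * N)) hXne
    ((L : ℝ) / (2 * N)) hδ1 (by
      intro p hp
      rw [hF, mem_filter, mem_product, mem_powersetCard, Fintype.mem_piFinset] at hp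
      obtain ⟨⟨⟨hpB, hpm⟩, hpf⟩, hpL⟩ := hp
      refine ⟨?_, ?_⟩
      · intro y hy
        simp only [mem_diffs] at hy
        obtain ⟨i, b, hb, rfl⟩ := hy
        have h1 := hpf i
        have h2 := hpB hb
        rw [hI, mem_Ioc] at h1
        rw [mem_range] at h2
        rw [mem_Ioc]
        omega
      · rw [hX]
        have h3 : (L : ℝ) / (2 * N) * N = L / 2 := by
          field_simp
        rw [h3]
        have h4 : (L : ℝ) ≤ 2 * (diffs p.2 p.1).card := by exact_mod_cast hpL
        linarith) s
  have hFcard : (F.card : ℝ) ≤ (q + 1 : ℝ) ^ m * (N : ℝ) ^ t := by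
    have h1 : F.card ≤ (q + 1) ^ m * N ^ t := by
      calc F.card ≤ ((powersetCard m (range (q + 1))) ×ˢ
            (Fintype.piFinset (fun _ : Fin t => I))).card := card_filter_le _ _
        _ = (q + 1).choose m * I.card ^ t := by
            rw [card_product, card_powersetCard, card_range, Fintype.card_piFinset]
            simp
        _ ≤ (q + 1) ^ m * N ^ t := by
            refine Nat.mul_le_mul (Nat.choose_le_pow _ _) (Nat.pow_le_pow_left ?_ _)
            rw [hI, Nat.card_Ioc]
            omega
    exact_mod_cast h1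
  have hzero : (F.filter (fun i => Disjoint A (diffs i.2 i.1))).card = 0 := by
    have h0 : (0 : ℝ) ≤ (1 - (L : ℝ) / (2 * N)) ^ s := pow_nonneg (by linarith) _
    have h1 : ((F.filter (fun i => Disjoint A (diffs i.2 i.1))).card : ℝ) < 1 :=
      lt_of_le_of_lt (hA.trans (mul_le_mul_of_nonneg_left hFcard h0)) hcount
    have h2 : (F.filter (fun i => Disjoint A (diffs i.2 i.1))).card < 1 := by exact_mod_cast h1
    omega
  rw [card_eq_zero] at hzero
  refine ⟨A, hAX, hAs, fun B hB hBm => ?_⟩
  by_contra hcon
  push Not at hcon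
  set T := I.filter (fun x => ∀ b ∈ B, x - b ∉ A) with hT
  have hTne : T.Nonempty := by
    rw [← card_pos]; omega
  obtain ⟨f, hfT, hf⟩ := greedy T B (by
    intro x hx b hb
    have h1 : x ∈ I := (mem_filter.1 hx).1
    rw [hI, mem_Ioc] at h1
    have h2 := hB hb
    rw [mem_range] at h2
    omega) hTne t
  have hmem : (B, f) ∈ F := by
    rw [hF, mem_filter, mem_product, mem_powersetCard, Fintype.mem_piFinset]
    refine ⟨⟨⟨hB, hBm⟩, fun i => (mem_filter.1 (hfT i)).1⟩, ?_⟩
    rw [hBm] at hf
    simp only
    omega
  have hnd : ¬ Disjoint A (diffs f B) := by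
    intro hd
    have : (B, f) ∈ F.filter (fun i => Disjoint A (diffs i.2 i.1)) :=
      mem_filter.2 ⟨hmem, hd⟩
    rw [hzero] at this
    simp at this
  rw [not_disjoint_iff] at hnd
  obtain ⟨a, haA, ha⟩ := hnd
  rw [mem_diffs] at ha
  obtain ⟨i, b, hb, rfl⟩ := ha
  exact (mem_filter.1 (hfT i)).2 b hb haA

end Pool.Agent.Y936.Stohr
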