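import Mathlib

/-!
Elementary facts on densities and on the growth of bases.
-/

namespace Pool.Agent.Y936.Stohr

open Finset Filter Topology

/-- A set that is thin in all large dyadic blocks has density zero. -/
theorem density_of_blocks (S : Set ℕ) [DecidablePred (· ∈ S)]
    (h : ∀ ε : ℝ, 0 < ε → ∃ j0 : ℕ, ∀ j, j0 ≤ j →
      ((((Ioc (2 ^ j) (2 * 2 ^ j)).filter (fun x => x ∈ S)).card : ℕ) : ℝ) ≤ ε * 2 ^ j) :
    Tendsto (fun n : ℕ => ((((Ioc 0 n).filter (fun x => x ∈ S)).card : ℕ) : ℝ) / n)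
      atTop (𝓝 0) := by
  rw [Metric.tendsto_atTop]
  intro ε hε
  obtain ⟨j0, hj0⟩ := h (ε / 4) (by positivity)
  -- bound at powers of two
  have hpow : ∀ J, j0 ≤ J →
      ((((Ioc 0 (2 ^ J)).filter (fun x => x ∈ S)).card : ℕ) : ℝ) ≤ 2 ^ j0 + ε / 4 * 2 ^ J := by
    intro J hJ
    induction J, hJ using Nat.le_induction with
    | base =>
      have h1 : ((Ioc 0 (2 ^ j0)).filter (fun x => x ∈ S)).card ≤ 2 ^ j0 := by
        refine (card_filter_le _ _).trans ?_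
        simp
      have h2 : ((((Ioc 0 (2 ^ j0)).filter (fun x => x ∈ S)).card : ℕ) : ℝ) ≤ 2 ^ j0 := by
        exact_mod_cast h1
      have h3 : (0 : ℝ) ≤ ε / 4 * 2 ^ j0 := by positivity
      linarith
    | succ J hJ ih =>
      have hsub : (Ioc 0 (2 ^ (J + 1))).filter (fun x => x ∈ S) ⊆
          (Ioc 0 (2 ^ J)).filter (fun x => x ∈ S) ∪
          (Ioc (2 ^ J) (2 * 2 ^ J)).filter (fun x => x ∈ S) := by
        intro x hx
        rw [mem_filter, mem_Ioc] at hx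
        rw [mem_union, mem_filter, mem_filter, mem_Ioc, mem_Ioc]
        have h2 : 2 ^ (J + 1) = 2 * 2 ^ J := by ring
        rcases le_or_gt x (2 ^ J) with h3 | h3
        · exact Or.inl ⟨⟨hx.1.1, h3⟩, hx.2⟩
        · exact Or.inr ⟨⟨h3, by omega⟩, hx.2⟩
      have h1 := (card_le_card hsub).trans (card_union_le _ _)
      have h2 : ((((Ioc 0 (2 ^ (J + 1))).filter (fun x => x ∈ S)).card : ℕ) : ℝ) ≤
          ((((Ioc 0 (2 ^ J)).filter (fun x => x ∈ S)).card : ℕ) : ℝ) +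
          ((((Ioc (2 ^ J) (2 * 2 ^ J)).filter (fun x => x ∈ S)).card : ℕ) : ℝ) := by
        exact_mod_cast h1
      have h3 := hj0 J hJ
      have h4 : (2 : ℝ) ^ (J + 1) = 2 * 2 ^ J := by ring
      rw [h4]
      linarith
  -- threshold
  obtain ⟨n0, hn0⟩ := exists_nat_gt ((2 : ℝ) ^ j0 * (4 / ε))
  refine ⟨max (max n0 (2 ^ j0)) 1, fun n hn => ?_⟩
  have hn1 : n0 ≤ n := le_trans (le_trans (le_max_left _ _) (le_max_left _ _)) hn
  have hn2 : 2 ^ j0 ≤ n := le_trans (le_trans (le_max_right _ _) (le_max_left _ _)) hn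
  have hn3 : 1 ≤ n := le_trans (le_max_right _ _) hn
  set J := Nat.log 2 n + 1 with hJ
  have hJn : n < 2 ^ J := Nat.lt_pow_succ_log_self (by norm_num) n
  have hJn2 : 2 ^ J ≤ 2 * n := by
    have := Nat.pow_log_le_self 2 (x := n) (by omega)
    rw [hJ, pow_succ]
    omega
  have hjJ : j0 ≤ J := by
    have h1 : 2 ^ j0 < 2 ^ J := lt_of_le_of_lt hn2 hJn
    exact ((Nat.pow_lt_pow_iff_right (by norm_num)).1 h1).le
  have hb := hpow J hjJ
  have hmono : ((((Ioc 0 n).filter (fun x => x ∈ S)).card : ℕ) : ℝ) ≤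
      ((((Ioc 0 (2 ^ J)).filter (fun x => x ∈ S)).card : ℕ) : ℝ) := by
    exact_mod_cast card_le_card (filter_subset_filter _ (Ioc_subset_Ioc_right hJn.le))
  have hnpos : (0 : ℝ) < n := by exact_mod_cast hn3
  have hJn2' : (2 : ℝ) ^ J ≤ 2 * n := by exact_mod_cast hJn2
  have hn0' : (2 : ℝ) ^ j0 * (4 / ε) < n := lt_of_lt_of_le hn0 (by exact_mod_cast hn1)
  have hn0'' : (2 : ℝ) ^ j0 < ε / 4 * n := by
    have h1 : (2 : ℝ) ^ j0 * (4 / ε) * (ε / 4) < n * (ε / 4) :=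
      mul_lt_mul_of_pos_right hn0' (by positivity)
    have h2 : (2 : ℝ) ^ j0 * (4 / ε) * (ε / 4) = 2 ^ j0 := by
      field_simp
    rw [h2] at h1
    linarith
  rw [Real.dist_eq, sub_zero, abs_of_nonneg (by positivity), div_lt_iff₀ hnpos]
  have h5 : ε / 4 * (2 : ℝ) ^ J ≤ ε / 4 * (2 * n) :=
    mul_le_mul_of_nonneg_left hJn2' (by positivity)
  have h6 : ε / 4 * (2 * (n : ℝ)) = ε / 2 * n := by ring
  have h7 : 0 < ε * (n : ℝ) := by positivity
  linarith

open Classical in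
/-- A basis of order `h` has at least `(q + 1) ^ (1 / h)` elements in `[0, q]`. -/
theorem basis_growth (h : ℕ) (B : Set ℕ)
    (hB : ∀ n : ℕ, ∃ f : Fin h → ℕ, (∀ i, f i ∈ B) ∧ ∑ i, f i = n) (q : ℕ) :
    q + 1 ≤ (((range (q + 1)).filter (fun x => x ∈ B)).card) ^ h := by
  have hsub : range (q + 1) ⊆ (Fintype.piFinset
      (fun _ : Fin h => (range (q + 1)).filter (fun x => x ∈ B))).image (fun f => ∑ i, f i) := by
    intro x hx
    obtain ⟨f, hf, hs⟩ := hB x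
    rw [mem_image]
    refine ⟨f, ?_, hs⟩
    rw [Fintype.mem_piFinset]
    intro i
    rw [mem_filter, mem_range]
    refine ⟨?_, hf i⟩
    have : f i ≤ ∑ i, f i := single_le_sum (fun _ _ => Nat.zero_le _) (mem_univ i)
    rw [mem_range] at hx
    omega
  have h1 := card_le_card hsub
  rw [card_range] at h1
  refine h1.trans (card_image_le.trans ?_)
  rw [Fintype.card_piFinset]
  simp

/-- If `1 ∈ S` and `S` has positive lower density, then `S` has positive Schnirelmann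
density. -/
theorem schnirelmann_pos (S : Set ℕ) [DecidablePred (· ∈ S)] (h1 : 1 ∈ S)
    (h : ∃ c : ℝ, 0 < c ∧ ∃ n0 : ℕ, ∀ n, n0 ≤ n →
      c * n ≤ ((((Ioc 0 n).filter (fun x => x ∈ S)).card : ℕ) : ℝ)) :
    0 < schnirelmannDensity S := by
  obtain ⟨c, hc, n0, hn0⟩ := h
  have hpos : 0 < min c (1 / ((n0 : ℝ) + 1)) := lt_min hc (by positivity)
  refine lt_of_lt_of_le hpos ?_
  have : Nonempty {n : ℕ // 0 < n} := ⟨⟨1, one_pos⟩⟩
  refine le_ciInf fun ⟨n, hn⟩ => ?_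
  have hnr : (0 : ℝ) < n := by exact_mod_cast hn
  rw [le_div_iff₀ hnr]
  rcases le_or_gt n0 n with h2 | h2
  · exact (mul_le_mul_of_nonneg_right (min_le_left _ _) hnr.le).trans (hn0 n h2)
  · have h3 : (1 : ℝ) ≤ ((((Ioc 0 n).filter (fun x => x ∈ S)).card : ℕ) : ℝ) := by
      have : 0 < ((Ioc 0 n).filter (fun x => x ∈ S)).card := by
        rw [card_pos]
        exact ⟨1, by rw [mem_filter, mem_Ioc]; exact ⟨⟨one_pos, hn⟩, h1⟩⟩
      exact_mod_cast this
    refine le_trans ?_ h3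
    have h4 : min c (1 / ((n0 : ℝ) + 1)) * n ≤ (1 / ((n0 : ℝ) + 1)) * n :=
      mul_le_mul_of_nonneg_right (min_le_right _ _) hnr.le
    refine h4.trans ?_
    rw [one_div, inv_mul_le_iff₀ (by positivity)]
    have : (n : ℝ) ≤ n0 := by exact_mod_cast h2.le
    linarith

end Pool.Agent.Y936.Stohr
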