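import Mathlib
import Pool.Agent.Y936.Stohr.Block
import Pool.Agent.Y936.Stohr.Density

/-!
A zero density set whose sum with every basis has density one.
-/

namespace Pool.Agent.Y936.Stohr

open Finset Filter Topology

/-- Number of points used in block `j`. -/
def sz (j : ℕ) : ℕ := 2 * (j + 1) ^ 2 * ((j + 1) ^ 4 + (2 ^ j / (j + 1) ^ 4 + 1)) + 1

theorem block_pow (j : ℕ) :
    ∃ A ⊆ Ioc (2 ^ j) (2 * 2 ^ j), A.card ≤ sz j ∧
      ∀ B ⊆ range (2 ^ j / (j + 1) + 1), B.card = (j + 1) ^ 4 →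
      ((Ioc (2 ^ j + 2 ^ j / (j + 1)) (2 * 2 ^ j)).filter
        (fun x => ∀ b ∈ B, x - b ∉ A)).card < 2 ^ j / (j + 1) + 1 := by
  refine block (2 ^ j) (2 ^ j / (j + 1)) ((j + 1) ^ 4) (2 ^ j / (j + 1) ^ 4 + 1)
    (2 ^ j / (j + 1) + 1) (sz j) (by positivity) ?_ (Nat.succ_pos _) ?_ ?_
  · have h1 : 2 ^ j < (2 ^ j / (j + 1) ^ 4 + 1) * (j + 1) ^ 4 := by
      have := Nat.div_add_mod (2 ^ j) ((j + 1) ^ 4)
      have h2 := Nat.mod_lt (2 ^ j) (show 0 < (j + 1) ^ 4 by positivity)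
      rw [add_mul, one_mul, mul_comm (2 ^ j / (j + 1) ^ 4)]
      omega
    have h2 : 2 ^ j / (j + 1) ≤ 2 ^ j := Nat.div_le_self _ _
    omega
  · have h2 : 2 ^ j / (j + 1) ≤ 2 ^ j := Nat.div_le_self _ _
    have h3 : 1 ≤ 2 ^ j := Nat.one_le_two_pow
    omega
  · set m := (j + 1) ^ 4 with hm
    set t := 2 ^ j / (j + 1) ^ 4 + 1 with ht
    have hj : (0 : ℝ) < (j : ℝ) + 1 := by positivity
    have hN : (0 : ℝ) < 2 ^ j := by positivity
    -- lower bound on the density of the sets to be hit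
    have hL : (2 : ℝ) ^ j / (j + 1) ≤ ((2 ^ j / (j + 1) + 1 : ℕ) : ℝ) := by
      have h1 : 2 ^ j ≤ (2 ^ j / (j + 1) + 1) * (j + 1) := by
        have := Nat.div_add_mod (2 ^ j) (j + 1)
        have h2 := Nat.mod_lt (2 ^ j) (show 0 < j + 1 by omega)
        rw [add_mul, one_mul, mul_comm (2 ^ j / (j + 1))]
        omega
      rw [div_le_iff₀ hj]
      exact_mod_cast h1
    have hδ : 1 / (2 * ((j : ℝ) + 1)) ≤ ((2 ^ j / (j + 1) + 1 : ℕ) : ℝ) / (2 * ((2 ^ j : ℕ) : ℝ)) := by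
      push_cast at hL ⊢
      rw [div_le_div_iff₀ (by positivity) (by positivity)]
      rw [div_le_iff₀ hj] at hL
      linarith
    have hδ1 : ((2 ^ j / (j + 1) + 1 : ℕ) : ℝ) / (2 * ((2 ^ j : ℕ) : ℝ)) ≤ 1 := by
      rw [div_le_one (by positivity)]
      have h2 : 2 ^ j / (j + 1) ≤ 2 ^ j := Nat.div_le_self _ _
      have h3 : 1 ≤ 2 ^ j := Nat.one_le_two_pow
      have h4 : 2 ^ j / (j + 1) + 1 ≤ 2 * 2 ^ j := by omega
      exact_mod_cast h4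
    set δ := ((2 ^ j / (j + 1) + 1 : ℕ) : ℝ) / (2 * ((2 ^ j : ℕ) : ℝ)) with hδdef
    have h1 : (1 - δ) ^ sz j ≤ Real.exp (-(sz j / (2 * ((j : ℝ) + 1)))) := by
      have h2 : 1 - δ ≤ Real.exp (-(1 / (2 * ((j : ℝ) + 1)))) := by
        have := Real.add_one_le_exp (-(1 / (2 * ((j : ℝ) + 1))))
        linarith
      calc (1 - δ) ^ sz j ≤ (Real.exp (-(1 / (2 * ((j : ℝ) + 1))))) ^ sz j :=
            pow_le_pow_left₀ (by linarith) h2 _
        _ = Real.exp (-(sz j / (2 * ((j : ℝ) + 1)))) := by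
            rw [← Real.exp_nat_mul]
            congr 1
            ring
    have h2e : (2 : ℝ) ≤ Real.exp 1 := by
      have := Real.add_one_le_exp (1 : ℝ)
      linarith
    have hq : (((2 ^ j / (j + 1) : ℕ) : ℝ) + 1) ≤ Real.exp (j + 1) := by
      have h2 : 2 ^ j / (j + 1) + 1 ≤ 2 ^ (j + 1) := by
        have h2 : 2 ^ j / (j + 1) ≤ 2 ^ j := Nat.div_le_self _ _
        have h3 : 1 ≤ 2 ^ j := Nat.one_le_two_pow
        rw [pow_succ]
        omega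
      have h3 : (((2 ^ j / (j + 1) : ℕ) : ℝ) + 1) ≤ (2 : ℝ) ^ (j + 1) := by exact_mod_cast h2
      have h4 : (2 : ℝ) ^ (j + 1) ≤ (Real.exp 1) ^ (j + 1) := pow_le_pow_left₀ (by norm_num) h2e _
      rw [← Real.exp_nat_mul] at h4
      push_cast at h4
      rw [mul_one] at h4
      linarith
    have hN' : ((2 ^ j : ℕ) : ℝ) ≤ Real.exp (j + 1) := by
      have h4 : (2 : ℝ) ^ j ≤ (Real.exp 1) ^ j := pow_le_pow_left₀ (by norm_num) h2e _
      rw [← Real.exp_nat_mul, mul_one] at h4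
      have h5 : Real.exp j ≤ Real.exp (j + 1) := Real.exp_le_exp.2 (by linarith)
      push_cast
      linarith
    have h3 : (((2 ^ j / (j + 1) : ℕ) : ℝ) + 1) ^ m * ((2 ^ j : ℕ) : ℝ) ^ t
        ≤ Real.exp ((j + 1) * (m + t)) := by
      calc (((2 ^ j / (j + 1) : ℕ) : ℝ) + 1) ^ m * ((2 ^ j : ℕ) : ℝ) ^ t
          ≤ (Real.exp (j + 1)) ^ m * (Real.exp (j + 1)) ^ t := by
            gcongr
        _ = Real.exp ((j + 1) * (m + t)) := by
            rw [← pow_add, ← Real.exp_nat_mul]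
            congr 1
            push_cast
            ring
    calc (1 - δ) ^ sz j * ((((2 ^ j / (j + 1) : ℕ) : ℝ) + 1) ^ m * ((2 ^ j : ℕ) : ℝ) ^ t)
        ≤ Real.exp (-(sz j / (2 * ((j : ℝ) + 1)))) * Real.exp ((j + 1) * (m + t)) := by
          refine mul_le_mul h1 h3 (by positivity) (Real.exp_nonneg _)
      _ = Real.exp (-(sz j / (2 * ((j : ℝ) + 1))) + (j + 1) * (m + t)) := by
          rw [← Real.exp_add]
      _ < 1 := by
          rw [Real.exp_lt_one_iff]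
          have h5 : ((j : ℝ) + 1) * (m + t) < sz j / (2 * ((j : ℝ) + 1)) := by
            rw [lt_div_iff₀ (by positivity)]
            have h6 : (sz j : ℝ) = 2 * ((j : ℝ) + 1) ^ 2 * (m + t) + 1 := by
              rw [sz, ← hm, ← ht]
              push_cast
              ring
            rw [h6]
            nlinarith
          linarith

/-- The block sizes are negligible. -/
theorem sz_small (ε : ℝ) (hε : 0 < ε) : ∃ j0 : ℕ, ∀ j, j0 ≤ j → (sz j : ℝ) ≤ ε * 2 ^ j := by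
  have h1 : Tendsto (fun n : ℕ => ((n : ℝ)) ^ 6 / (2 : ℝ) ^ n) atTop (𝓝 0) :=
    tendsto_pow_const_div_const_pow_of_one_lt 6 (by norm_num)
  have h2 : Tendsto (fun j : ℕ => (((j + 1 : ℕ) : ℝ)) ^ 6 / (2 : ℝ) ^ (j + 1)) atTop (𝓝 0) :=
    h1.comp (tendsto_add_atTop_nat 1)
  have h3 : Tendsto (fun j : ℕ => 1 / (((j + 1 : ℕ) : ℝ))) atTop (𝓝 0) := by
    have := tendsto_one_div_add_atTop_nhds_zero_nat (𝕜 := ℝ)
    push_cast
    exact this
  have h4 : Tendsto (fun j : ℕ => 10 * ((((j + 1 : ℕ) : ℝ)) ^ 6 / (2 : ℝ) ^ (j + 1)) +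
      2 * (1 / (((j + 1 : ℕ) : ℝ)))) atTop (𝓝 (10 * 0 + 2 * 0)) :=
    (h2.const_mul 10).add (h3.const_mul 2)
  have h5 : ∀ᶠ j in atTop, 10 * ((((j + 1 : ℕ) : ℝ)) ^ 6 / (2 : ℝ) ^ (j + 1)) +
      2 * (1 / (((j + 1 : ℕ) : ℝ))) < ε :=
    h4.eventually_lt_const (by linarith)
  obtain ⟨j0, hj0⟩ := eventually_atTop.1 h5
  refine ⟨j0, fun j hj => ?_⟩
  have h6 := hj0 j hj
  have hN : (0 : ℝ) < 2 ^ j := by positivity
  have hJ : (1 : ℝ) ≤ ((j + 1 : ℕ) : ℝ) := by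
    push_cast
    have : (0 : ℝ) ≤ j := Nat.cast_nonneg j
    linarith
  set x : ℝ := ((j + 1 : ℕ) : ℝ) with hx
  have hdiv : (((2 ^ j / (j + 1) ^ 4 : ℕ)) : ℝ) ≤ 2 ^ j / x ^ 4 := by
    have := Nat.cast_div_le (α := ℝ) (m := 2 ^ j) (n := (j + 1) ^ 4)
    refine this.trans (le_of_eq ?_)
    rw [hx]
    push_cast
    ring
  have h7 : (sz j : ℝ) ≤ 2 * x ^ 2 * (x ^ 4 + (2 ^ j / x ^ 4 + 1)) + 1 := by
    have h8 : (sz j : ℝ) = 2 * x ^ 2 * (x ^ 4 + ((((2 ^ j / (j + 1) ^ 4 : ℕ)) : ℝ) + 1)) + 1 := by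
      rw [sz, hx]
      push_cast
      ring
    rw [h8]
    have : (0 : ℝ) ≤ 2 * x ^ 2 := by positivity
    nlinarith [mul_le_mul_of_nonneg_left hdiv this]
  have h8 : 2 * x ^ 2 * (x ^ 4 + (2 ^ j / x ^ 4 + 1)) + 1 ≤ 5 * x ^ 6 + 2 * 2 ^ j / x := by
    have h9 : 2 * x ^ 2 * (x ^ 4 + (2 ^ j / x ^ 4 + 1)) + 1
        = 2 * x ^ 6 + 2 * 2 ^ j / x ^ 2 + 2 * x ^ 2 + 1 := by
      field_simp
      ring
    rw [h9]
    have h10 : x ^ 2 ≤ x ^ 6 := pow_le_pow_right₀ hJ (by norm_num)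
    have h11 : (1 : ℝ) ≤ x ^ 6 := one_le_pow₀ hJ
    have h12 : 2 * 2 ^ j / x ^ 2 ≤ 2 * 2 ^ j / x := by
      apply div_le_div_of_nonneg_left (by positivity) (by linarith)
      nlinarith
    linarith
  have h9 : 5 * x ^ 6 + 2 * 2 ^ j / x = (10 * (x ^ 6 / (2 : ℝ) ^ (j + 1)) + 2 * (1 / x)) * 2 ^ j := by
    rw [pow_succ]
    field_simp
    ring
  have h10 := mul_le_mul_of_nonneg_right h6.le hN.le
  linarith

/-- A basis has many small elements. -/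
theorem many (h : ℕ) (B : Set ℕ)
    (hB : ∀ n : ℕ, ∃ f : Fin h → ℕ, (∀ i, f i ∈ B) ∧ ∑ i, f i = n) :
    ∃ j0 : ℕ, ∀ j, j0 ≤ j → ∃ B' ⊆ range (2 ^ j / (j + 1) + 1),
      B'.card = (j + 1) ^ 4 ∧ ∀ b ∈ B', b ∈ B := by
  classical
  have h1 : Tendsto (fun n : ℕ => ((n : ℝ)) ^ (4 * h + 1) / (2 : ℝ) ^ n) atTop (𝓝 0) :=
    tendsto_pow_const_div_const_pow_of_one_lt _ (by norm_num)
  have h2 : Tendsto (fun j : ℕ => (((j + 1 : ℕ) : ℝ)) ^ (4 * h + 1) / (2 : ℝ) ^ (j + 1))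
      atTop (𝓝 0) := h1.comp (tendsto_add_atTop_nat 1)
  obtain ⟨j0, hj0⟩ := eventually_atTop.1 (h2.eventually_lt_const (show (0 : ℝ) < 1 / 2 by norm_num))
  refine ⟨j0, fun j hj => ?_⟩
  have h3 := hj0 j hj
  rw [div_lt_iff₀ (by positivity), pow_succ 2 j] at h3
  have h4 : (((j + 1 : ℕ) : ℝ)) ^ (4 * h + 1) < 2 ^ j := by linarith
  have h5 : (j + 1) ^ (4 * h + 1) < 2 ^ j := by exact_mod_cast h4
  have h6 : (j + 1) ^ (4 * h) ≤ 2 ^ j / (j + 1) := by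
    rw [Nat.le_div_iff_mul_le (by omega), ← pow_succ]
    exact h5.le
  set C := (range (2 ^ j / (j + 1) + 1)).filter (fun x => x ∈ B) with hC
  have h7 : 2 ^ j / (j + 1) + 1 ≤ C.card ^ h := by
    have := basis_growth h B hB (2 ^ j / (j + 1))
    rw [hC]
    exact this
  have h8 : (j + 1) ^ 4 ≤ C.card := by
    by_contra hcon
    push Not at hcon
    have h9 : C.card ^ h ≤ ((j + 1) ^ 4) ^ h := Nat.pow_le_pow_left hcon.le _
    rw [← pow_mul] at h9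
    omega
  obtain ⟨B', hB'C, hB'⟩ := exists_subset_card_eq h8
  refine ⟨B', hB'C.trans (filter_subset _ _), hB', fun b hb => ?_⟩
  exact (mem_filter.1 (hB'C hb)).2

end Pool.Agent.Y936.Stohr
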