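import Mathlib
import Pool.Agent.Y936.Stohr.Universal

/-!
Assembly: a zero density set whose sum with every basis has density one.
-/

namespace Pool.Agent.Y936.Stohr

open Finset Filter Topology
open scoped Pointwise

/-- The chosen block. -/
noncomputable def blk (j : ℕ) : Finset ℕ := (block_pow j).choose

theorem blk_sub (j : ℕ) : blk j ⊆ Ioc (2 ^ j) (2 * 2 ^ j) := (block_pow j).choose_spec.1

theorem blk_card (j : ℕ) : (blk j).card ≤ sz j := (block_pow j).choose_spec.2.1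

theorem blk_prop (j : ℕ) : ∀ B ⊆ range (2 ^ j / (j + 1) + 1), B.card = (j + 1) ^ 4 →
      ((Ioc (2 ^ j + 2 ^ j / (j + 1)) (2 * 2 ^ j)).filter
        (fun x => ∀ b ∈ B, x - b ∉ blk j)).card < 2 ^ j / (j + 1) + 1 :=
  (block_pow j).choose_spec.2.2

/-- The universal set. -/
def uni : Set ℕ := {0, 4} ∪ ⋃ j, (blk j : Set ℕ)

theorem blk_sub_uni (j : ℕ) : ∀ x ∈ blk j, x ∈ uni := by
  intro x hx
  exact Or.inr (Set.mem_iUnion.2 ⟨j, hx⟩)

theorem zero_mem_uni : 0 ∈ uni := Or.inl (by simp)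

theorem four_mem_uni : 4 ∈ uni := Or.inl (by simp)

open Classical in
theorem uni_zero :
    Tendsto (fun n : ℕ => ((((Ioc 0 n).filter (fun x => x ∈ uni)).card : ℕ) : ℝ) / n)
      atTop (𝓝 0) := by
  refine density_of_blocks uni fun ε hε => ?_
  obtain ⟨j0, hj0⟩ := sz_small ε hε
  refine ⟨max j0 2, fun j hj => ?_⟩
  have hj1 : j0 ≤ j := (le_max_left _ _).trans hj
  have hj2 : 2 ≤ j := (le_max_right _ _).trans hj
  have hsub : (Ioc (2 ^ j) (2 * 2 ^ j)).filter (fun x => x ∈ uni) ⊆ blk j := by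
    intro x hx
    rw [mem_filter, mem_Ioc] at hx
    obtain ⟨⟨h1, h2⟩, h3⟩ := hx
    have h4 : 2 ^ 2 ≤ 2 ^ j := Nat.pow_le_pow_right (by norm_num) hj2
    rcases h3 with h3 | h3
    · rcases h3 with h3 | h3
      · omega
      · rw [Set.mem_singleton_iff] at h3
        omega
    · obtain ⟨i, hi⟩ := Set.mem_iUnion.1 h3
      rw [Finset.mem_coe] at hi
      have h5 := blk_sub i hi
      rw [mem_Ioc] at h5
      have h6 : i = j := by
        rcases lt_trichotomy i j with h7 | h7 | h7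
        · exfalso
          have h8 : 2 ^ (i + 1) ≤ 2 ^ j := Nat.pow_le_pow_right (by norm_num) h7
          rw [pow_succ] at h8
          omega
        · exact h7
        · exfalso
          have h8 : 2 ^ (j + 1) ≤ 2 ^ i := Nat.pow_le_pow_right (by norm_num) h7
          rw [pow_succ] at h8
          omega
      rw [← h6]
      exact hi
  have h1 : ((Ioc (2 ^ j) (2 * 2 ^ j)).filter (fun x => x ∈ uni)).card ≤ sz j :=
    (card_le_card hsub).trans (blk_card j)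
  have h2 : ((((Ioc (2 ^ j) (2 * 2 ^ j)).filter (fun x => x ∈ uni)).card : ℕ) : ℝ) ≤ sz j := by
    exact_mod_cast h1
  exact h2.trans (hj0 j hj1)

open Classical in
theorem uni_missing (h : ℕ) (B : Set ℕ)
    (hB : ∀ n : ℕ, ∃ f : Fin h → ℕ, (∀ i, f i ∈ B) ∧ ∑ i, f i = n) :
    Tendsto (fun n : ℕ => ((((Ioc 0 n).filter (fun x => x ∈ (uni + B)ᶜ)).card : ℕ) : ℝ) / n)
      atTop (𝓝 0) := by
  refine density_of_blocks (uni + B)ᶜ fun ε hε => ?_
  obtain ⟨j0, hj0⟩ := many h B hB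
  -- `2 / (j + 1) + 1 / 2 ^ j ≤ ε` eventually
  have h3 : Tendsto (fun j : ℕ => 1 / (((j : ℕ) : ℝ) + 1)) atTop (𝓝 0) :=
    tendsto_one_div_add_atTop_nhds_zero_nat (𝕜 := ℝ)
  obtain ⟨j1, hj1⟩ := eventually_atTop.1
    (h3.eventually_lt_const (show (0 : ℝ) < ε / 3 by positivity))
  refine ⟨max j0 j1, fun j hj => ?_⟩
  obtain ⟨B', hB'sub, hB'card, hB'B⟩ := hj0 j ((le_max_left _ _).trans hj)
  have hε' := hj1 j ((le_max_right _ _).trans hj)
  have hprop := blk_prop j B' hB'sub hB'card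
  set q := 2 ^ j / (j + 1) with hq
  have hsub : (Ioc (2 ^ j) (2 * 2 ^ j)).filter (fun x => x ∈ (uni + B)ᶜ) ⊆
      Ioc (2 ^ j) (2 ^ j + q) ∪ (Ioc (2 ^ j + q) (2 * 2 ^ j)).filter
        (fun x => ∀ b ∈ B', x - b ∉ blk j) := by
    intro x hx
    rw [mem_filter, mem_Ioc] at hx
    obtain ⟨⟨h1, h2⟩, h3⟩ := hx
    rw [mem_union, mem_filter, mem_Ioc, mem_Ioc]
    rcases le_or_gt x (2 ^ j + q) with h4 | h4
    · exact Or.inl ⟨h1, h4⟩
    · refine Or.inr ⟨⟨h4, h2⟩, fun b hb hxb => h3 ?_⟩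
      refine Set.mem_add.2 ⟨x - b, blk_sub_uni j _ hxb, b, hB'B b hb, ?_⟩
      have := hB'sub hb
      rw [mem_range] at this
      omega
  have hcard := (card_le_card hsub).trans (card_union_le _ _)
  rw [Nat.card_Ioc] at hcard
  have h5 : ((Ioc (2 ^ j) (2 * 2 ^ j)).filter (fun x => x ∈ (uni + B)ᶜ)).card ≤ 2 * q + 1 := by
    omega
  have h6 : ((((Ioc (2 ^ j) (2 * 2 ^ j)).filter (fun x => x ∈ (uni + B)ᶜ)).card : ℕ) : ℝ)
      ≤ 2 * (q : ℝ) + 1 := by exact_mod_cast h5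
  have h7 : (q : ℝ) ≤ 2 ^ j / ((j : ℝ) + 1) := by
    have := Nat.cast_div_le (α := ℝ) (m := 2 ^ j) (n := j + 1)
    rw [hq]
    push_cast at this ⊢
    exact this
  have h8 : (1 : ℝ) ≤ 2 ^ j / ((j : ℝ) + 1) := by
    rw [le_div_iff₀ (by positivity), one_mul]
    have : j + 1 ≤ 2 ^ j := Nat.lt_two_pow_self
    exact_mod_cast this
  have h9 : (2 : ℝ) ^ j / ((j : ℝ) + 1) = 1 / ((j : ℝ) + 1) * 2 ^ j := by ring
  have h10 : 1 / ((j : ℝ) + 1) * 2 ^ j ≤ ε / 3 * 2 ^ j :=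
    mul_le_mul_of_nonneg_right hε'.le (by positivity)
  linarith

/-- In a basis of finite order, `1` occurs. -/
theorem one_mem_basis (h : ℕ) (B : Set ℕ)
    (hB : ∀ n : ℕ, ∃ f : Fin h → ℕ, (∀ i, f i ∈ B) ∧ ∑ i, f i = n) : 1 ∈ B := by
  obtain ⟨f, hf, hs⟩ := hB 1
  by_contra hcon
  have hex : ∃ i, f i ≠ 0 := by
    by_contra h0
    push Not at h0
    rw [sum_congr rfl (fun i _ => h0 i)] at hs
    simp at hs
  obtain ⟨i, hi⟩ := hex
  have h1 : f i ≤ ∑ i, f i := single_le_sum (fun _ _ => Nat.zero_le _) (mem_univ i)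
  have h2 : f i = 1 := by omega
  exact hcon (h2 ▸ hf i)

open Classical in
theorem uni_density (h : ℕ) (B : Set ℕ)
    (hB : ∀ n : ℕ, ∃ f : Fin h → ℕ, (∀ i, f i ∈ B) ∧ ∑ i, f i = n) :
    Tendsto (fun n : ℕ => ((((Ioc 0 n).filter (fun x => x ∈ uni + B)).card : ℕ) : ℝ) / n)
      atTop (𝓝 1) := by
  have h1 := uni_missing h B hB
  have h2 : Tendsto (fun n : ℕ => 1 -
      ((((Ioc 0 n).filter (fun x => x ∈ (uni + B)ᶜ)).card : ℕ) : ℝ) / n) atTop (𝓝 (1 - 0)) :=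
    tendsto_const_nhds.sub h1
  rw [sub_zero] at h2
  refine h2.congr' ?_
  filter_upwards [eventually_ge_atTop 1] with n hn
  have hn' : (0 : ℝ) < n := by exact_mod_cast hn
  have h3 := card_filter_add_card_filter_not (s := Ioc 0 n) (fun x => x ∈ uni + B)
  rw [Nat.card_Ioc] at h3
  have h4 : (((Ioc 0 n).filter (fun x => x ∈ uni + B)).card : ℝ) +
      (((Ioc 0 n).filter (fun x => x ∈ (uni + B)ᶜ)).card : ℝ) = n := by
    have h5 : (Ioc 0 n).filter (fun x => x ∈ (uni + B)ᶜ)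
        = (Ioc 0 n).filter (fun x => ¬ x ∈ uni + B) := by
      ext x
      simp only [mem_filter, Set.mem_compl_iff]
    rw [h5]
    have h6 : ((Ioc 0 n).filter (fun x => x ∈ uni + B)).card +
      ((Ioc 0 n).filter (fun x => ¬ x ∈ uni + B)).card = n := by omega
    exact_mod_cast h6
  rw [eq_div_iff hn'.ne', sub_mul, div_mul_cancel₀ _ hn'.ne']
  linarith

open Classical in
theorem uni_schnirelmann (h : ℕ) (B : Set ℕ)
    (hB : ∀ n : ℕ, ∃ f : Fin h → ℕ, (∀ i, f i ∈ B) ∧ ∑ i, f i = n) :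
    0 < schnirelmannDensity (uni + B) := by
  refine schnirelmann_pos _ ?_ ?_
  · exact Set.mem_add.2 ⟨0, zero_mem_uni, 1, one_mem_basis h B hB, rfl⟩
  · obtain ⟨n0, hn0⟩ := eventually_atTop.1
      ((uni_density h B hB).eventually_const_lt (show (1 : ℝ) / 2 < 1 by norm_num))
    refine ⟨1 / 2, by norm_num, max n0 1, fun n hn => ?_⟩
    have h1 := hn0 n ((le_max_left _ _).trans hn)
    have hn' : (0 : ℝ) < n := by
      have := (le_max_right _ _).trans hn
      exact_mod_cast this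
    rw [lt_div_iff₀ hn'] at h1
    exact h1.le

end Pool.Agent.Y936.Stohr
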